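import Mathlib
import Pool.Agent.TH35.CH.TrvQ
import Pool.Agent.Results.MP_181555_al.SquaresOfTransvections

set_option autoImplicit false

/-! Homomorphisms from `Aut(F_n)` to linear groups of small degree. -/

namespace Pool.Agent.Results.MP_1d7b2e_al.SmallLinearTargets

open Pool.Agent.TH35.CH Pool.Agent.H29R2.MG Pool.Agent.TH35.MG Pool.Agent.Helper950.BG

/-- the transvection `x i ↦ x i * x j` -/
def RR {n : ℕ} (i j : Fin n) : MulAut (FreeGroup (Fin n)) :=
  if h : j ≠ i then trR i j h else 1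

theorem RR_self {n : ℕ} {i j : Fin n} (h : i ≠ j) :
    RR i j (FreeGroup.of i) = FreeGroup.of i * FreeGroup.of j := by
  unfold RR
  rw [dif_pos h.symm, trR_self]

theorem RR_ne {n : ℕ} {i j x : Fin n} (h : x ≠ i) :
    RR i j (FreeGroup.of x) = FreeGroup.of x := by
  unfold RR
  split_ifs with h1
  · rw [trR_ne _ _ _ h]
  · rfl

/-- if the square of a transvection dies, the image is finite -/
theorem fin_of_sq {n : ℕ} (hn : 3 ≤ n) {G : Type} [Group G]
    (φ : MulAut (FreeGroup (Fin n)) →* G) {i j : Fin n} (hij : i ≠ j)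
    (h : φ (RR i j) * φ (RR i j) = 1) : (Set.range φ).Finite := by
  obtain ⟨-, -, hC3⟩ :=
    Pool.Agent.Results.MP_181555_al.SquaresOfTransvections.result n (by omega)
  obtain ⟨hfi, -, -⟩ := hC3 φ.ker inferInstance
    ⟨RR i j, ⟨i, j, hij, RR_self hij, fun x hx => RR_ne hx⟩, by
      rw [MonoidHom.mem_ker, map_mul, h]⟩
  have h1 : Finite (MulAut (FreeGroup (Fin n)) ⧸ φ.ker) := inferInstance
  have h2 : Finite φ.range := Finite.of_equiv _ (QuotientGroup.quotientKerEquivRange φ).toEquiv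
  have h3 : (φ.range : Set G) = Set.range φ := MonoidHom.coe_range φ
  rw [← h3]
  exact Set.toFinite _

/-- the standard copy of `Aut(F_n)` in `Aut(F_{n+1})` -/
def Std {n : ℕ} (σ : MulAut (FreeGroup (Fin (n + 1)))) : Prop :=
  σ (FreeGroup.of (Fin.last n)) = FreeGroup.of (Fin.last n) ∧
    (Subgroup.closure (Set.range (fun i : Fin n => FreeGroup.of i.castSucc))).map
        (σ : FreeGroup (Fin (n + 1)) →* FreeGroup (Fin (n + 1))) =
      Subgroup.closure (Set.range (fun i : Fin n => FreeGroup.of i.castSucc))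

theorem std_mul {n : ℕ} {σ τ : MulAut (FreeGroup (Fin (n + 1)))} (h : Std σ) (h' : Std τ) :
    Std (σ * τ) := by
  refine ⟨?_, ?_⟩
  · rw [MulAut.mul_apply, h'.1, h.1]
  · have e : ((σ * τ : MulAut (FreeGroup (Fin (n + 1)))) :
        FreeGroup (Fin (n + 1)) →* FreeGroup (Fin (n + 1))) =
        (σ : FreeGroup (Fin (n + 1)) →* FreeGroup (Fin (n + 1))).comp
          (τ : FreeGroup (Fin (n + 1)) →* FreeGroup (Fin (n + 1))) := rfl
    rw [e, ← Subgroup.map_map, h'.2, h.2]

theorem std_pow {n : ℕ} {σ : MulAut (FreeGroup (Fin (n + 1)))} (h : Std σ) (k : ℕ) :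
    Std (σ ^ k) := by
  induction k with
  | zero =>
    rw [pow_zero]
    refine ⟨rfl, ?_⟩
    have e : ((1 : MulAut (FreeGroup (Fin (n + 1)))) :
        FreeGroup (Fin (n + 1)) →* FreeGroup (Fin (n + 1))) = MonoidHom.id _ := rfl
    rw [e, Subgroup.map_id]
  | succ k ih => rw [pow_succ]; exact std_mul ih h

theorem std_RR {n : ℕ} {i j : Fin n} (hij : i ≠ j) : Std (RR i.castSucc j.castSucc) := by
  have hij' : i.castSucc ≠ j.castSucc := fun h => hij (Fin.castSucc_injective _ h)
  have hm : ∀ l : Fin n, (FreeGroup.of l.castSucc : FreeGroup (Fin (n + 1))) ∈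
      Subgroup.closure (Set.range (fun i : Fin n =>
        (FreeGroup.of i.castSucc : FreeGroup (Fin (n + 1))))) :=
    fun l => Subgroup.subset_closure ⟨l, rfl⟩
  refine ⟨RR_ne (Fin.castSucc_lt_last i).ne', le_antisymm ?_ ?_⟩
  · rw [Subgroup.map_le_iff_le_comap, Subgroup.closure_le]
    rintro _ ⟨l, rfl⟩
    show RR i.castSucc j.castSucc (FreeGroup.of l.castSucc) ∈
      Subgroup.closure (Set.range (fun i : Fin n =>
        (FreeGroup.of i.castSucc : FreeGroup (Fin (n + 1)))))
    by_cases hl : l = i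
    · rw [hl, RR_self hij']
      exact mul_mem (hm i) (hm j)
    · rw [RR_ne fun h => hl (Fin.castSucc_injective _ h)]
      exact hm l
  · rw [Subgroup.closure_le]
    rintro _ ⟨l, rfl⟩
    by_cases hl : l = i
    · refine ⟨FreeGroup.of i.castSucc * (FreeGroup.of j.castSucc)⁻¹,
        mul_mem (hm i) (inv_mem (hm j)), ?_⟩
      show RR i.castSucc j.castSucc (FreeGroup.of i.castSucc * (FreeGroup.of j.castSucc)⁻¹) = _
      rw [map_mul, map_inv, RR_self hij', RR_ne hij'.symm, hl, mul_inv_cancel_right]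
    · refine ⟨FreeGroup.of l.castSucc, hm l, ?_⟩
      show RR i.castSucc j.castSucc (FreeGroup.of l.castSucc) = _
      rw [RR_ne fun h => hl (Fin.castSucc_injective _ h)]

theorem result :
    ∀ (n d : ℕ) (K : Type) [Field K]
      (φ : MulAut (FreeGroup (Fin (n + 1))) →* Matrix.GeneralLinearGroup (Fin d) K),
      ((CharP K 2 ∧ ∃ q k : ℕ, 2 * q + k + 3 ≤ (n + 1) / 2 ∧ d < q ^ 2 ∧ d < 2 ^ k) →
        (Set.range φ).Finite) ∧
      ((CharZero K ∧ ∃ m : ℕ, m + 5 ≤ (n + 1) / 2 ∧ d < 2 ^ m) →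
        (φ '' {σ : MulAut (FreeGroup (Fin (n + 1))) |
          σ (FreeGroup.of (Fin.last n)) = FreeGroup.of (Fin.last n) ∧
          (Subgroup.closure (Set.range (fun i : Fin n => FreeGroup.of i.castSucc))).map
              (σ : FreeGroup (Fin (n + 1)) →* FreeGroup (Fin (n + 1))) =
            Subgroup.closure (Set.range (fun i : Fin n => FreeGroup.of i.castSucc))}).Finite →
        (Set.range φ).Finite) := by
  intro n d K _ φ
  refine ⟨?_, ?_⟩
  · rintro ⟨hch, q, k, hm, hd, hd2⟩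
    rw [pow_two] at hd
    have hq0 : q ≠ 0 := by
      rintro rfl
      omega
    have hn : 9 ≤ n := by omega
    have ne : ∀ a b : ℕ, a ≠ b → ∀ (ha : a < n + 1) (hb : b < n + 1),
        (⟨a, ha⟩ : Fin (n + 1)) ≠ ⟨b, hb⟩ := fun a b hab ha hb h =>
      hab (Fin.mk.inj_iff.1 h)
    have n01 := ne 0 1 (by omega) (by omega) (by omega)
    have n23 := ne 2 3 (by omega) (by omega) (by omega)
    have h3 := (trv_pair hm hd hd2 K φ n01 (ne 0 2 (by omega) (by omega) (by omega))
      (ne 0 3 (by omega) (by omega) (by omega)) (ne 1 2 (by omega) (by omega) (by omega))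
      (ne 1 3 (by omega) (by omega) (by omega)) n23 (RR_self n01) (fun x hx => RR_ne hx)
      (RR_self n23) (fun x hx => RR_ne hx)).1
    refine fin_of_sq (by omega) φ n01 ?_
    generalize RR (⟨0, by omega⟩ : Fin (n + 1)) ⟨1, by omega⟩ = τ at h3 ⊢
    have h4 : ((glEnd d K).comp φ) τ = phi' d K (φ τ : Matrix (Fin d) (Fin d) K) := by
      rw [phi'_gl]
      rfl
    rw [h4, ← map_one (phi' d K), ← map_sub, ← map_mul] at h3
    have h5 : ((φ τ : Matrix (Fin d) (Fin d) K) - 1) * ((φ τ : Matrix (Fin d) (Fin d) K) - 1) =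
        0 := by
      apply phi'_inj d K
      rw [h3, map_zero]
    apply Units.ext
    rw [Units.val_mul, Units.val_one]
    have h6 : (2 : Matrix (Fin d) (Fin d) K) = 0 := by
      have h7 : ((2 : ℕ) : K) = 0 := CharP.cast_eq_zero K 2
      have h8 : (2 : Matrix (Fin d) (Fin d) K) = (2 : K) • (1 : Matrix (Fin d) (Fin d) K) := by
        rw [two_smul, one_add_one_eq_two]
      have h9 : (2 : K) = 0 := by exact_mod_cast h7
      rw [h8, h9, zero_smul]
    have h10 : (φ τ : Matrix (Fin d) (Fin d) K) * (φ τ : Matrix (Fin d) (Fin d) K) =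
        ((φ τ : Matrix (Fin d) (Fin d) K) - 1) * ((φ τ : Matrix (Fin d) (Fin d) K) - 1) +
          2 * ((φ τ : Matrix (Fin d) (Fin d) K) - 1) + 1 := by
      noncomm_ring
    rw [h10, h5, h6, zero_mul, add_zero, zero_add]
  · rintro ⟨hch, m, hm, hd⟩ hfin
    have hn : 9 ≤ n := by omega
    have n01 : (⟨0, by omega⟩ : Fin n) ≠ ⟨1, by omega⟩ := fun h =>
      absurd (Fin.mk.inj_iff.1 h) (by omega)
    have n01' : (⟨0, by omega⟩ : Fin n).castSucc ≠ (⟨1, by omega⟩ : Fin n).castSucc :=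
      fun h => n01 (Fin.castSucc_injective _ h)
    refine fin_of_sq (by omega) φ n01' ?_
    have hstd := std_RR n01
    have htv : TrV (RR (⟨0, by omega⟩ : Fin n).castSucc (⟨1, by omega⟩ : Fin n).castSucc) :=
      ⟨_, _, n01', RR_self n01', fun x hx => RR_ne hx⟩
    have hu := trv_unip hm hd K φ htv
    generalize RR (⟨0, by omega⟩ : Fin n).castSucc (⟨1, by omega⟩ : Fin n).castSucc = τ
      at hstd htv hu
    have h1 : IsOfFinOrder (φ τ) := by
      rw [← finite_powers]
      refine hfin.subset ?_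
      rintro _ ⟨k, rfl⟩
      exact ⟨τ ^ k, std_pow hstd k, map_pow φ τ k⟩
    obtain ⟨k, hk, hk2⟩ := isOfFinOrder_iff_pow_eq_one.1 h1
    have h2 : φ τ = 1 := unip_fin _ hu (by exact_mod_cast hk.ne') hk2
    rw [h2, mul_one]

end Pool.Agent.Results.MP_1d7b2e_al.SmallLinearTargets
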